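import Mathlib
import Pool.Agent.TAU.Main

/-!
# Tau-stability over atomic `Q` for spaces with a distributive lattice of subspaces

`T = Th(M)` is a stable complete theory in a countable language with less than `2^ℵ₀` countable
models.  The set `V = Φ(M)` with its full induced structure is a vector space over a finite field
with a distributive lattice of subspaces `W A` (of infinite index in each other), for example a
vector space with an infinite descending chain of subspaces; nothing is assumed about `T` outside
of `Φ`.  If `V` is atomic then for every finite `c` in `M` there is a finite `a` in `V` such that `V`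
is atomic over `a, c`.

## Structure of the proof (all files in `Pool/Agent/TAU`)

1. *Lattice spaces* (`Neu`, `Crt`, `Dnf`, `Elim`, `Qe`): Neumann's lemma, Chinese remainder theorem
   for distributive lattices, quantifier elimination uniformly in all lattice spaces.
2. *Model theory* (`MD`, `Hd`, `Lad`, `RkD`, `Trc`): ladders and tree ranks; in a stable theory the
   trace on `V` of a set definable over `c` is definable over `V`, so it is a Boolean combination of
   cosets.  `Om1`, `Om2`, `Ms`: omitting types; every countable lattice space over the same lattice is
   the `Φ`-part of a countable model of `T`.  `CntF`, `CntT`: counting models.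
3. *The spectrum* `Pt Λ` of prime filters.  If infinitely many prime filters had a non-isolated
   generic type there would be `2^ℵ₀` models `V ⊕ ⊕_{i ∈ S} F` (`Vs`, `BadFin`); an infinite
   antichain converging to a point not below its members gives `2^ℵ₀` types (`Anti`).  Hence the set
   of non-isolated points is finite, near a non-isolated point `x` all points are comparable with `x`,
   and closed upper sets have finitely many minimal points (`LimA`, `LimB`, `MinIso`).
4. *Algebraic cosets* over `c` (`AlgB`, `AlgSub`, `Cov`, `LemA`, `LemT`): they form a filtered family
   of subspaces and determine the types over `c`.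
5. *Smallness*: infinitely many independent algebraic elements at isolated points would give `2^ℵ₀`
   types of pairs `c, c'` (`Gen1`, `Gen2`, `Fresh`, `Basis`, `PatL`, `PatR`, `PatFew`, `SExt`).  So the
   algebraic part over every `W A` has bounded dimension (`DimB`, `AlgDef`, `QDim`).
6. *Isolation* (`IsoP`, `IsoN`, `Rem`, `Core`): `a` consists of representatives of the finitely many
   algebraic directions at the non-isolated points.
-/

set_option autoImplicit false

namespace Pool.Agent.Results.MP_c7a31e_lc.LatticeSpaces

open FirstOrder FirstOrder.Language TAU

/-- Let `M` be a countable structure in a countable language whose theory is stable and has less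
than `2^ℵ₀` countable models.  Let `V = Φ(M)` be an `F`-space, `F` a finite field, with a distributive
lattice of subspaces `W A` (`LatSpace`) such that the traces on `V ^ n` of the sets definable in `M`
without parameters are exactly the Boolean combinations of the conditions `∑ μ i • v i ∈ W A`, and
suppose that `V` is atomic: the type of every tuple of `V` is isolated among the tuples of `V`.  Then
for every finite tuple `c` of `M` there is a finite tuple `a` of `V` such that `V` is atomic over
`c, a`: for each tuple `d` of `V` some formula `ψ` over `c, a` is true of `d`, and all tuples of `V`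
which satisfy `ψ` have the type of `d` over `c, a`. -/
theorem result (L : FirstOrder.Language.{0, 0}) (hL : L.card ≤ Cardinal.aleph0) (M : Type)
    [L.Structure M] [Countable M] (hst : StableTh L M)
    (hfew : numModels L (L.completeTheory M) < Cardinal.continuum) (Φ : L.Formula (Fin 1))
    (F Λ : Type) [Field F] [Finite F] [DistribLattice Λ] [BoundedOrder Λ]
    [AddCommGroup (Sol Φ M)] [Module F (Sol Φ M)] (W : Λ → Submodule F (Sol Φ M))
    (hW : LatSpace W)
    (hdef : ∀ (n : ℕ) (s : Set (Fin n → Sol Φ M)),
      (∃ φ : L.Formula (Fin n), ∀ v : Fin n → Sol Φ M, v ∈ s ↔ φ.Realize fun i => (v i : M)) ↔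
        BoolComb (basics W (Fin n)) s)
    (hatom : ∀ (n : ℕ) (v : Fin n → Sol Φ M), ∃ ψ : L.Formula (Fin n),
      ψ.Realize (fun i => (v i : M)) ∧
        ∀ w : Fin n → Sol Φ M, ψ.Realize (fun i => (w i : M)) → ∀ θ : L.Formula (Fin n),
          θ.Realize (fun i => (v i : M)) → θ.Realize (fun i => (w i : M)))
    (m : ℕ) (c : Fin m → M) :
    ∃ (k : ℕ) (a : Fin k → Sol Φ M), ∀ (l : ℕ) (d : Fin l → Sol Φ M),
      ∃ ψ : L.Formula ((Fin m ⊕ Fin k) ⊕ Fin l),
        ψ.Realize (Sum.elim (Sum.elim c fun i => (a i : M)) fun i => (d i : M)) ∧
          ∀ y : Fin l → Sol Φ M,
            ψ.Realize (Sum.elim (Sum.elim c fun i => (a i : M)) fun i => (y i : M)) →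
              ∀ θ : L.Formula ((Fin m ⊕ Fin k) ⊕ Fin l),
                θ.Realize (Sum.elim (Sum.elim c fun i => (a i : M)) fun i => (d i : M)) →
                  θ.Realize (Sum.elim (Sum.elim c fun i => (a i : M)) fun i => (y i : M)) :=
  main L hL M hst hfew Φ F Λ W hW hdef hatom m c

end Pool.Agent.Results.MP_c7a31e_lc.LatticeSpaces
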