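import Mathlib
import Pool.Agent.TAU.NMain

/-!
# Smallness does not suffice for tau-stability over atomic `Q`

An explicit small stable theory, all of whose hypotheses are those of `LatticeSpaces` except that
the number of countable models is not assumed to be less than `2^ℵ₀`, for which the conclusion
fails.

## The example (all files in `Pool/Agent/TAU`)

The structure `M = HH F` is an `F`-space of functions on the grid `ℕ × ℕ` together with one extra
point `*` (`NED`), with the subspaces of the functions which vanish on a nice set: a finite
down-closed set of cells, or `*` with `k` full rows and a finite down-closed rest, or everything.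
`V` is the subspace of the functions which vanish at `*`.  A function in `V` is given by finitely many
finitely supported rows; the entry in column `0` of row `i` contains a code of all the preceding
rows.  So every nonzero element of `V` vanishes on a largest nice set, which has finitely many
minimal extensions, and its type is isolated (`NEA`).  The element `c` has all its rows equal to a
fixed row `ρ ≠ 0`: it is a limit of elements of `V` on every finite set of rows, but not simultaneously
on all of them.  For a finite tuple `a` of `V` take `K` such that no combination of `a` agrees with `c`
on the rows `≤ K`, and `b` in `V` which agrees with `c` on these rows: the type of `b` over `a, c` is not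
isolated, because `b` can be changed in row `K` in a far column (`NEN`).
The theory has quantifier elimination (`NL`), is stable (`NSt`) and small, since the lattice of nice
sets has only countably many filters (`NEF`, `NSm`).
-/

set_option autoImplicit false

namespace Pool.Agent.Results.MP_c7a31e_lc.SmallnessFails

open FirstOrder FirstOrder.Language TAU

/-- For every finite field `F` there are a countable structure `M` in a countable language, with
stable and small theory (countably many complete `n`-types for each `n`), and a formula `Φ` such that
`V = Φ(M)` with its full induced structure is an `F`-space with a distributive lattice of subspaces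
(`LatSpace`), `V` is atomic, and for some element `c` of `M` the set `V` is not atomic over `c` and
any finite tuple `a` of `V`: some element `d` of `V` satisfies no formula over `c, a` which implies
its type over `c, a` among the elements of `V`. -/
theorem result (F : Type) [Field F] [Finite F] :
    ∃ (L : FirstOrder.Language.{0, 0}) (M : Type) (_ : L.Structure M) (Φ : L.Formula (Fin 1))
      (Λ : Type) (_ : DistribLattice Λ) (_ : BoundedOrder Λ) (_ : AddCommGroup (Sol Φ M))
      (_ : Module F (Sol Φ M)) (W : Λ → Submodule F (Sol Φ M)),
      L.card ≤ Cardinal.aleph0 ∧ Countable M ∧ StableTh L M ∧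
      (∀ n : ℕ, Countable ((L.completeTheory M).CompleteType (Fin n))) ∧ LatSpace W ∧
      (∀ (n : ℕ) (s : Set (Fin n → Sol Φ M)),
        (∃ φ : L.Formula (Fin n), ∀ v : Fin n → Sol Φ M,
          v ∈ s ↔ φ.Realize fun i => (v i : M)) ↔ BoolComb (basics W (Fin n)) s) ∧
      (∀ (n : ℕ) (v : Fin n → Sol Φ M), ∃ ψ : L.Formula (Fin n),
        ψ.Realize (fun i => (v i : M)) ∧
          ∀ w : Fin n → Sol Φ M, ψ.Realize (fun i => (w i : M)) → ∀ θ : L.Formula (Fin n),
            θ.Realize (fun i => (v i : M)) → θ.Realize (fun i => (w i : M))) ∧
      ∃ c : Fin 1 → M, ∀ (k : ℕ) (a : Fin k → Sol Φ M), ∃ d : Fin 1 → Sol Φ M,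
        ∀ ψ : L.Formula ((Fin 1 ⊕ Fin k) ⊕ Fin 1),
          ψ.Realize (Sum.elim (Sum.elim c fun i => (a i : M)) fun i => (d i : M)) →
            ∃ y : Fin 1 → Sol Φ M,
              ψ.Realize (Sum.elim (Sum.elim c fun i => (a i : M)) fun i => (y i : M)) ∧
              ∃ θ : L.Formula ((Fin 1 ⊕ Fin k) ⊕ Fin 1),
                θ.Realize (Sum.elim (Sum.elim c fun i => (a i : M)) fun i => (d i : M)) ∧
                ¬ θ.Realize (Sum.elim (Sum.elim c fun i => (a i : M)) fun i => (y i : M)) :=
  negMain F

end Pool.Agent.Results.MP_c7a31e_lc.SmallnessFails
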