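import Mathlib
import Pool.Agent.SSF.Exm

/-!
# Smallness does not suffice for tau-stability over atomic `Q`, even if the theory is superstable

An explicit superstable small theory, a formula `Φ` and a model in which `Q = Φ(M)` is atomic, and an element `c` such that `Q` is
not atomic over `c` and any finite subset of `Q`.

## The example (all files in `Pool/Agent/SSF`)

The elements of `M` are the finite sequences of natural numbers, and the finitely supported infinite ones; the length is the kind
of the element.  The (binary) relations: `E κ κ' s r (x, y)`: the kinds of `x` and `y` are `κ` and `κ'` (both at least `s`), and
the first `s` entries of `x` and `y` agree in the first `r` binary digits; `P t t' s (x, y)`: `x` and `y` are finite sequences of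
lengths `t, t' ≥ s` and their first `s` entries are equal.  There is no such relation for the equality of entries of infinite
sequences: the infinite sequences only see the digits.  The relations with parameters at most `K` have a one-point extension
property (`Ext`), so every formula is invariant under the equivalence of tuples with the same atomic formulas with parameters at
most some `K` (`Inv`), and complete types are determined by atomic formulas (`Det`, `App`).  The theory is small (`Sml`), since
`ℕ × ℕ` has countably many lower sets, and superstable (`Sup`): a type over `N` is determined by its relations to countably many
representatives of the classes of the relations `E`, and by the first `s` entries of the finite sequences for all `s`, which are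
elements of `N`.  `Q`, the set of the finite sequences, is atomic, since for finitely many finite sequences it is enough to know
the digits below a bound and all equalities of entries.  For `c` the zero sequence, a finite tuple `a` in `Q` and `t` larger than all
lengths, let `d` be the zero sequence of length `t`: the type of `d` over `a, c` is not isolated, because the last entry of `d` is
zero in all digits (`Exm`).
-/

set_option autoImplicit false

namespace Pool.Agent.Results.MP_c7a31e_lc.SuperstableSmall

open FirstOrder FirstOrder.Language SSF

/-- There are a countable structure `M` in a countable language, with superstable and small theory (`Superstable`: over every model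
`N` of the theory there are at most `max |N| 2^ℵ₀` complete `n`-types; `Small`: there are countably many complete `n`-types over
the empty set), and a formula `Φ` such that `Q = Φ(M)` with its full induced structure is atomic, and for some element `c` of `M`
the set `Q` is not atomic over `c` and any finite tuple `a` of `Q`: some element `d` of `Q` satisfies no formula over `c, a` which
implies its type over `c, a` among the elements of `Q`. -/
theorem result :
    ∃ (L : FirstOrder.Language.{0, 0}) (M : Type) (_ : L.Structure M) (Φ : L.Formula (Fin 1)),
      L.card ≤ Cardinal.aleph0 ∧ Countable M ∧ Superstable L M ∧ Small L M ∧
      (∀ (n : ℕ) (v : Fin n → Sol Φ M), ∃ ψ : L.Formula (Fin n),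
        ψ.Realize (fun i => (v i : M)) ∧
          ∀ w : Fin n → Sol Φ M, ψ.Realize (fun i => (w i : M)) → ∀ θ : L.Formula (Fin n),
            θ.Realize (fun i => (v i : M)) → θ.Realize (fun i => (w i : M))) ∧
      ∃ c : Fin 1 → M, ∀ (k : ℕ) (a : Fin k → Sol Φ M), ∃ d : Fin 1 → Sol Φ M,
        ∀ ψ : L.Formula ((Fin 1 ⊕ Fin k) ⊕ Fin 1),
          ψ.Realize (Sum.elim (Sum.elim c fun i => (a i : M)) fun i => (d i : M)) →
            ∃ y : Fin 1 → Sol Φ M,
              ψ.Realize (Sum.elim (Sum.elim c fun i => (a i : M)) fun i => (y i : M)) ∧
              ∃ θ : L.Formula ((Fin 1 ⊕ Fin k) ⊕ Fin 1),
                θ.Realize (Sum.elim (Sum.elim c fun i => (a i : M)) fun i => (d i : M)) ∧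
                ¬ θ.Realize (Sum.elim (Sum.elim c fun i => (a i : M)) fun i => (y i : M)) :=
  ⟨LL, MM, inferInstance, PhiQ, card_LL, countable_MM, superstable, small, atomic, bad⟩

end Pool.Agent.Results.MP_c7a31e_lc.SuperstableSmall
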